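import Mathlib
import Pool.Agent.H43R3.SumG.Final

/-!
Two graphs of sum number one whose disjoint union has sum number two
(a counterexample to the conjecture of Kratochvil, Miller and Nguyen for unit graphs).
-/

set_option autoImplicit false

namespace Pool.Agent.Results.MP_a7f73e_co.UnitUnion

/-- `H` is a sum graph: it has an injective labelling by positive integers such that two
distinct vertices are adjacent exactly when the sum of their labels is again a label. -/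
def IsSumGraph {V : Type} (H : SimpleGraph V) : Prop :=
  ∃ f : V → ℕ, Function.Injective f ∧ (∀ v, 0 < f v) ∧
    ∀ u v, u ≠ v → (H.Adj u v ↔ ∃ w, f u + f v = f w)

/-- `k` is the sum number of `G`: the least `r` such that the disjoint union of `G` with `r`
isolated vertices is a sum graph. -/
def HasSumNumber {V : Type} (G : SimpleGraph V) (k : ℕ) : Prop :=
  IsLeast {r : ℕ | IsSumGraph (G ⊕g (⊥ : SimpleGraph (Fin r)))} k

theorem sum_iff {V : Type} (G : SimpleGraph V) (r : ℕ) :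
    IsSumGraph (G ⊕g (⊥ : SimpleGraph (Fin r))) ↔ H43R3.SumG.IsLab G r := by
  have key : ∀ x y : V ⊕ Fin r, (G ⊕g (⊥ : SimpleGraph (Fin r))).Adj x y ↔
      ∃ u v, x = Sum.inl u ∧ y = Sum.inl v ∧ G.Adj u v := by
    rintro (u | i) (v | j) <;> simp
  unfold IsSumGraph H43R3.SumG.IsLab
  simp only [key]

theorem sum_iff' {V W : Type} (G : SimpleGraph V) (H : SimpleGraph W) (r : ℕ) :
    IsSumGraph ((G ⊕g H) ⊕g (⊥ : SimpleGraph (Fin r))) ↔ H43R3.SumG.IsLabU G H r := by
  have key : ∀ x y : (V ⊕ W) ⊕ Fin r, ((G ⊕g H) ⊕g (⊥ : SimpleGraph (Fin r))).Adj x y ↔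
      ((∃ u v, x = Sum.inl (Sum.inl u) ∧ y = Sum.inl (Sum.inl v) ∧ G.Adj u v) ∨
        (∃ u v, x = Sum.inl (Sum.inr u) ∧ y = Sum.inl (Sum.inr v) ∧ H.Adj u v)) := by
    rintro ((u | u) | i) ((v | v) | j) <;> simp
  unfold IsSumGraph H43R3.SumG.IsLabU
  simp only [key]

/-- There are finite graphs `G₁`, `G₂`, each of sum number exactly one, whose disjoint union has
sum number exactly two. -/
theorem result : ∃ (V W : Type) (_ : Fintype V) (_ : Fintype W)
    (G₁ : SimpleGraph V) (G₂ : SimpleGraph W),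
    HasSumNumber G₁ 1 ∧ HasSumNumber G₂ 1 ∧ HasSumNumber (G₁ ⊕g G₂) 2 := by
  obtain ⟨τ1, τ2, h1, h2, h3⟩ := H43R3.SumG.exists_pair
  have : Nonempty (H43R3.SumG.VV τ1) :=
    ⟨H43R3.SumG.mkv h1 (s := 2) (by unfold H43R3.SumG.inS; omega)⟩
  have : Nonempty (H43R3.SumG.VV τ2) :=
    ⟨H43R3.SumG.mkv h2 (s := 2) (by unfold H43R3.SumG.inS; omega)⟩
  refine ⟨_, _, Fintype.ofFinite _, Fintype.ofFinite _, H43R3.SumG.GG τ1, H43R3.SumG.GG τ2,
    ⟨?_, ?_⟩, ⟨?_, ?_⟩, ⟨?_, ?_⟩⟩
  · exact (sum_iff _ _).2 (H43R3.SumG.lab_one h1)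
  · intro r hr
    rcases Nat.eq_zero_or_pos r with h0 | h0
    · subst h0
      exact absurd ((sum_iff _ _).1 hr) (H43R3.SumG.not_lab_zero _ (H43R3.SumG.GG_nb h1))
    · exact h0
  · exact (sum_iff _ _).2 (H43R3.SumG.lab_one h2)
  · intro r hr
    rcases Nat.eq_zero_or_pos r with h0 | h0
    · subst h0
      exact absurd ((sum_iff _ _).1 hr) (H43R3.SumG.not_lab_zero _ (H43R3.SumG.GG_nb h2))
    · exact h0
  · exact (sum_iff' _ _ _).2
      (H43R3.SumG.labU_two (H43R3.SumG.lab_one h1) (H43R3.SumG.lab_one h2))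
  · intro r hr
    have hr' := (sum_iff' _ _ _).1 hr
    have h4 : r ≠ 0 := by
      rintro rfl
      exact H43R3.SumG.not_labU_zero _ _ (H43R3.SumG.GG_nb h1) (H43R3.SumG.GG_nb h2) hr'
    have h5 : r ≠ 1 := by
      rintro rfl
      exact h3 hr'
    omega

end Pool.Agent.Results.MP_a7f73e_co.UnitUnion
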